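import Pool.Agent.H369Z.Err.Main

set_option autoImplicit false

namespace Pool.Agent.Results.MP_2a1a00_nt.ACorrelated

open Pool.Agent.H369Z.Err Filter

/-- The mean square of `L` on the critical line is `T P(log T) + O(T^(1-η))` with `η > 0` and a
non-zero polynomial `P`. -/
def MeanSquare (L : ℂ → ℂ) : Prop :=
  ∃ P : Polynomial ℝ, P ≠ 0 ∧ ∃ η : ℝ, 0 < η ∧ ∃ C T₀ : ℝ, ∀ T : ℝ, T₀ ≤ T →
    |(∫ t in (1 : ℝ)..T, ‖L (1 / 2 + t * Complex.I)‖ ^ 2) - T * P.eval (Real.log T)| ≤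
      C * T ^ (1 - η)

lemma one_mem : InSelberg LSeries.delta (fun _ => 1) 0 := by
  refine ⟨fun s _ => ⟨?_, (congrFun LSeries_delta s).symm⟩,
    ⟨0, fun _ => 1, differentiable_const _, ⟨1, 0, fun s => by simp⟩, fun s _ => by simp⟩,
    ⟨1, 0, Fin.elim0, Fin.elim0, 1, one_pos, fun j => j.elim0, fun j => j.elim0, norm_one,
      by simp, fun s _ _ _ _ => by simp [completed]⟩,
    fun ε hε => ⟨1, fun n hn => ?_⟩, by simp [LSeries.delta],
    ⟨0, 0, 0, by norm_num, fun _ _ => rfl, fun n _ => by simp, fun s _ => ⟨?_, ?_⟩⟩⟩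
  · unfold LSeriesSummable
    refine summable_of_ne_finset_zero (s := {1}) fun n hn => ?_
    rw [LSeries.term_delta, if_neg (by simpa using hn)]
  · have h1 : (1 : ℝ) ≤ (n : ℝ) ^ ε := Real.one_le_rpow (by exact_mod_cast hn) hε.le
    unfold LSeries.delta
    split_ifs
    · simpa using h1
    · simp only [norm_zero]
      positivity
  · exact LSeriesSummable_zero
  · simp [LSeries_zero]

/-- Admissible twists exist, and for every admissible twist `L` there are two members of the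
Selberg class, of integer degrees `2 ≤ d₁ < d₂`, for which the twisted integral of the product of
the error terms over `[1, T]` is not even `O(T^2)`. -/
theorem result :
    (∃ (b : ℕ → ℂ) (L : ℂ → ℂ) (d : ℝ), InSelberg b L d ∧ MeanSquare L) ∧
    ∀ (b : ℕ → ℂ) (L : ℂ → ℂ) (d : ℝ), InSelberg b L d → MeanSquare L →
      ∃ (d₁ d₂ : ℕ) (a₁ a₂ : ℕ → ℂ) (F₁ F₂ : ℂ → ℂ), 2 ≤ d₁ ∧ d₁ < d₂ ∧
        InSelberg a₁ F₁ d₁ ∧ InSelberg a₂ F₂ d₂ ∧
        ¬ ∃ C T₀ : ℝ, ∀ T : ℝ, T₀ ≤ T →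
          ‖∫ x in (1 : ℝ)..T, err a₁ F₁ x * err a₂ F₂ x *
            ((‖L (1 / 2 + x * Complex.I)‖ ^ 2 : ℝ) : ℂ)‖ ≤ C * T ^ (2 : ℝ) := by
  constructor
  · exact ⟨_, _, _, one_mem, 1, one_ne_zero, 1, one_pos, 1, 0, fun T _ => by simp⟩
  · rintro b L d hL ⟨P, hP, η, hη, C, T₀, hC⟩
    obtain ⟨m, H, hH, -, hHL⟩ := hL.continuation
    have hne : ∀ t : ℝ, (1 / 2 + t * Complex.I : ℂ) ≠ 1 := by
      intro t h
      have := congrArg Complex.re h
      norm_num at this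
    have he : (fun t : ℝ => L (1 / 2 + t * Complex.I)) =
        fun t : ℝ => H (1 / 2 + t * Complex.I) / (1 / 2 + t * Complex.I - 1) ^ m := by
      funext t
      rw [hHL _ (hne t), mul_div_cancel_left₀ _ (pow_ne_zero m (sub_ne_zero.2 (hne t)))]
    have hc : Continuous fun t : ℝ => L (1 / 2 + t * Complex.I) := by
      rw [he]
      exact (hH.continuous.comp (by fun_prop)).div (by fun_prop)
        fun t => pow_ne_zero m (sub_ne_zero.2 (hne t))
    exact weighted (fun t => ‖L (1 / 2 + t * Complex.I)‖ ^ 2) P hP η C hη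
      (fun x y => (hc.norm.pow 2).intervalIntegrable x y) (eventually_atTop.2 ⟨T₀, hC⟩)

end Pool.Agent.Results.MP_2a1a00_nt.ACorrelated
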